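import Pool.Agent.TH724.BD.Exhaust

/-!
# Measures that detect every non-null set by translation, and box dimension

Let `μ` be an atomless Borel probability measure on the real line such that every set of positive
outer Lebesgue measure has a translate of positive outer `μ`-measure. Then `μ` has a nonzero
restriction which vanishes on each set of lower box dimension less than `1`. This is a theorem of
ZFC.

In fact, for each sequence of sets `P e` of lower box dimension less than `1` there is a set `X` of
positive outer Lebesgue measure such that `(X + t) ∩ P e` is finite for all `t` and `e`. The set `X`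
is constructed by recursion of length `𝔠`, avoiding one null set at each step, and all finite
subsets `F` of `X` are kept good for all `e`: at infinitely many of the scales of `P e` the set of
all `t` with `F ⊆ P e + t` is covered by few intervals, fewer and fewer with the number of points
of `F`. The next point is found on a perfect set within a compact set of positive measure such
that, for each good `F`, all but finitely many points `x` of the perfect set have a good
`F ∪ {x}`.
-/

set_option autoImplicit false

open MeasureTheory

namespace Pool.Agent.Results.MP_db9878_lc.DetectingPartOfFullDimension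

open Pool.Agent.TH724.BD

theorem result (μ : Measure ℝ) [IsProbabilityMeasure μ] (hat : ∀ x : ℝ, μ {x} = 0)
    (hdet : ∀ X : Set ℝ, volume X ≠ 0 → ∃ t : ℝ, μ ((fun x => x + t) '' X) ≠ 0) :
    ∃ A₀ : Set ℝ, MeasurableSet A₀ ∧ μ A₀ ≠ 0 ∧
      ∀ P : Set ℝ, LowerBoxDimLtOne P → μ (P ∩ A₀) = 0 := by
  obtain ⟨P, hP, hm, h⟩ := exists_part μ
  refine ⟨(⋃ e, P e)ᶜ, hm.compl, fun h0 => ?_, h⟩
  obtain ⟨X, hX1, hX2⟩ := not_detecting μ hat P hP h0
  obtain ⟨t, ht⟩ := hdet X hX1
  exact ht (hX2 t)

end Pool.Agent.Results.MP_db9878_lc.DetectingPartOfFullDimension
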